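import Pool.Graph.R_pool_sql_team_seeded_64922ed1.X220.PD.Dig

set_option autoImplicit false

/-! Decimal palindromes with prescribed outer digits, as lists of digits. -/

namespace Pool.Agent.Helper51.PL

open Finset
open Pool.Agent.Y816.PS (pal pal_digits pal_reverse VE VE_inj ae av ae_lt ae_top ae_out)
open Pool.Agent.X220.PD (Om pal_dig VE_ae)

/-- the decimal palindrome with the outer digits `w` (`w` begins with the leading digit), the inner digits `u` (`u 0` next to the
middle) and the middle digit `c` -/
def palin (w : List ℕ) {L : ℕ} (u : Fin L → Fin 10) (c : ℕ) : ℕ :=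
  Nat.ofDigits 10 (w ++ (List.ofFn fun i => (u i : ℕ)).reverse ++ [c] ++ (List.ofFn fun i => (u i : ℕ)) ++ w.reverse)

/-- the digit at distance `j` from the middle -/
def dg (w : List ℕ) {L : ℕ} (u : Fin L → Fin 10) (c : ℕ) (j : ℕ) : ℕ :=
  if j = 0 then c else if h : j - 1 < L then (u ⟨j - 1, h⟩ : ℕ) else w.getD (w.length + L - j) 0

theorem list_eq (w : List ℕ) {L : ℕ} (u : Fin L → Fin 10) (c : ℕ) :
    w ++ (List.ofFn fun i => (u i : ℕ)).reverse ++ [c] ++ (List.ofFn fun i => (u i : ℕ)) ++ w.reverse =
      (List.range (2 * (w.length + L) + 1)).map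
        (fun i => dg w u c (((w.length + L) - i) + (i - (w.length + L)))) := by
  apply List.ext_getElem
  · simp
    omega
  · intro i h1 h2
    simp only [List.length_map, List.length_range] at h2
    rw [List.getElem_map, List.getElem_range]
    simp only [List.getElem_append, List.length_append, List.length_reverse, List.length_ofFn, List.length_cons,
      List.length_nil, List.getElem_reverse, List.getElem_ofFn, List.getElem_singleton]
    unfold dg
    split_ifs <;> first | rfl | (exfalso; omega) | skip
    · rw [List.getD_eq_getElem _ _ (by omega)]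
      congr 1
      omega
    · exact congrArg (fun z : Fin L => (u z : ℕ)) (Fin.ext (by dsimp only; omega))
    · exact congrArg (fun z : Fin L => (u z : ℕ)) (Fin.ext (by dsimp only; omega))
    · rw [List.getD_eq_getElem _ _ (by omega)]
      congr 1
      omega

/-- the conditions for the outer digits -/
def Outer (w : List ℕ) : Prop := w ≠ [] ∧ (∀ d ∈ w, d < 10) ∧ (w.headI).Coprime 10

theorem head_ne {w : List ℕ} (h : Outer w) : w.headI ≠ 0 := by
  intro h0
  have := h.2.2
  rw [h0] at this
  exact absurd this (by decide)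

theorem dg_top {w : List ℕ} (h : w ≠ []) {L : ℕ} (u : Fin L → Fin 10) (c : ℕ) : dg w u c (w.length + L) = w.headI := by
  have h1 : 0 < w.length := List.length_pos_iff.2 h
  unfold dg
  rw [if_neg (by omega), dif_neg (by omega), Nat.sub_self]
  cases w with
  | nil => exact absurd rfl h
  | cons a l => rfl

theorem dg_lt {w : List ℕ} (hw : ∀ d ∈ w, d < 10) {L : ℕ} (u : Fin L → Fin 10) {c : ℕ} (hc : c < 10) (j : ℕ) :
    dg w u c j < 10 := by
  unfold dg
  split_ifs with h1 h2
  · exact hc
  · exact (u _).isLt
  · by_cases h3 : w.length + L - j < w.length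
    · rw [List.getD_eq_getElem _ _ h3]
      exact hw _ (List.getElem_mem h3)
    · rw [List.getD_eq_default _ _ (by omega)]
      norm_num

theorem palin_eq_pal {w : List ℕ} {L : ℕ} (u : Fin L → Fin 10) (c : ℕ) :
    palin w u c = pal 10 (w.length + L) (dg w u c) := by
  unfold palin pal
  rw [list_eq w u c, Pool.Agent.Y816.PS.ofDigits_map 10 (fun i => dg w u c ((w.length + L - i) + (i - (w.length + L))))]

theorem palin_digits {w : List ℕ} (hw : Outer w) {L : ℕ} (u : Fin L → Fin 10) {c : ℕ} (hc : c < 10) :
    Nat.digits 10 (palin w u c) =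
      w ++ (List.ofFn fun i => (u i : ℕ)).reverse ++ [c] ++ (List.ofFn fun i => (u i : ℕ)) ++ w.reverse := by
  rw [palin_eq_pal, pal_digits (by norm_num) (dg_lt hw.2.1 u hc) (by rw [dg_top hw.1]; exact head_ne hw), list_eq]

theorem palin_reverse {w : List ℕ} (hw : Outer w) {L : ℕ} (u : Fin L → Fin 10) {c : ℕ} (hc : c < 10) :
    (Nat.digits 10 (palin w u c)).reverse = Nat.digits 10 (palin w u c) := by
  rw [palin_eq_pal]
  exact pal_reverse (by norm_num) (dg_lt hw.2.1 u hc) (by rw [dg_top hw.1]; exact head_ne hw)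

/-- the number with the outer digits `w` and zeros inside -/
def base (w : List ℕ) (L : ℕ) : ℕ := palin w (fun _ : Fin L => (0 : Fin 10)) 0

theorem base_dig {w : List ℕ} (hw : Outer w) (L : ℕ) {j : ℕ} (hj : L < j) (hj2 : j ≤ w.length + L) :
    base w L / 10 ^ (w.length + L + j) % 10 = w.getD (w.length + L - j) 0 := by
  unfold base
  rw [palin_eq_pal, pal_dig (by norm_num) (dg_lt hw.2.1 _ (by norm_num)) (by rw [dg_top hw.1]; exact head_ne hw) (by omega)]
  unfold dg
  rw [if_neg (by omega), dif_neg (by omega)]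
  congr 1
  omega

theorem VE_palin {w : List ℕ} (hw : Outer w) {L : ℕ} (m : Fin L → Fin 10 × Fin 1) (c : ℕ) :
    VE 10 (w.length + L) L (base w L) c m = palin w (fun i => (m i).1) c := by
  rw [VE_ae, palin_eq_pal]
  unfold pal
  apply sum_congr rfl
  intro i hi
  rw [mem_range] at hi
  congr 1
  obtain ⟨j, hj⟩ : ∃ j, j = w.length + L - i + (i - (w.length + L)) := ⟨_, rfl⟩
  rw [← hj]
  have hjN : j ≤ w.length + L := by omega
  by_cases h0 : j = 0
  · rw [h0]
    simp [ae, dg]
  by_cases h1 : j - 1 < L
  · have h2 : ((m ⟨j - 1, h1⟩).2 : ℕ) = 0 := by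
      have := (m ⟨j - 1, h1⟩).2.isLt
      omega
    unfold ae Pool.Agent.Y816.PS.av dg
    rw [if_neg h0, if_neg h0, dif_pos h1, if_neg h0, dif_pos h1, h2, add_zero]
  · rw [ae_out m (by omega), base_dig hw L (by omega) hjN]
    unfold dg
    rw [if_neg h0, dif_neg h1]

/-- the dependence on the inner digits does not depend on the outer digits -/
theorem palin_sub {w w' : List ℕ} (hw : Outer w) (hw' : Outer w') (hl : w.length = w'.length) {L : ℕ} (u : Fin L → Fin 10)
    (c : ℕ) : palin w u c + base w' L = palin w' u c + base w L := by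
  have h0 := List.length_pos_iff.2 hw.1
  have key : ∀ {v : List ℕ} (hv : Outer v), v.length = w.length → ∀ (u' : Fin L → Fin 10) (c' : ℕ),
      palin v u' c' = (Pool.Agent.Y816.PS.n0 10 (w.length + L) L (base v L) - 10 ^ (w.length + L) + c' * 10 ^ (w.length + L)) +
        10 ^ (w.length + L - L - 1) * Pool.Agent.Y816.PS.sg 10 L (fun i => (u' i, 0)) := by
    intro v hv hvl u' c'
    have h1 := VE_palin hv (fun i => (u' i, (0 : Fin 1))) c'
    rw [Pool.Agent.Y816.PS.VE_eq _ _ (by omega), hvl] at h1
    exact h1.symm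
  have a1 := key hw rfl u c
  have a2 := key hw' hl.symm u c
  have a3 := key hw rfl (fun _ => 0) 0
  have a4 := key hw' hl.symm (fun _ => 0) 0
  have b3 : base w L = palin w (fun _ : Fin L => (0 : Fin 10)) 0 := rfl
  have b4 : base w' L = palin w' (fun _ : Fin L => (0 : Fin 10)) 0 := rfl
  rw [← b3] at a3
  rw [← b4] at a4
  linarith

end Pool.Agent.Helper51.PL
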