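import Pool.Agent.Helper51.PL.Pal

set_option autoImplicit false

/-! Palindromes with the same inner digits and arbitrary outer digits: the sieve, uniformly in the outer digits. -/

namespace Pool.Agent.Helper51.PL

open Finset
open Pool.Agent.Y816.PS (pal VE VE_inj)
open Pool.Agent.X220.PD (Om master Spr)
open Pool.Agent.H373R2.T7 (pz mem_pz nuB PerB)
open Pool.Agent.X55.Fam (Adm VQ VQ_low)

/-- no prime factor up to `y` -/
def Rough (y n : ℕ) : Prop := ∀ p : ℕ, p.Prime → p ∣ n → y < p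

/-- the number of the residue classes modulo `p` of the numbers with the outer digits `w i` and zeros inside -/
def nu {k : ℕ} (w : Fin k → List ℕ) (L p : ℕ) : ℕ :=
  ((univ : Finset (Fin k)).image (fun i => base (w i) L % p)).card

/-- the product of the local factors -/
noncomputable def V {k : ℕ} (w : Fin k → List ℕ) (L y : ℕ) : ℝ :=
  ∏ p ∈ (Icc 1 y).filter (fun p => p.Prime ∧ p ≠ 2 ∧ p ≠ 5), (1 - (nu w L p : ℝ) / p)

theorem dvd_twenty {p : ℕ} (hp : p.Prime) : p ∣ 2 * 10 ↔ p = 2 ∨ p = 5 := by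
  constructor
  · intro hd
    rcases (Nat.Prime.dvd_mul hp).1 hd with h | h
    · exact Or.inl ((Nat.prime_dvd_prime_iff_eq hp Nat.prime_two).1 h)
    · have h7 : p ∣ 2 * 5 := h
      rcases (Nat.Prime.dvd_mul hp).1 h7 with h8 | h8
      · exact Or.inl ((Nat.prime_dvd_prime_iff_eq hp Nat.prime_two).1 h8)
      · exact Or.inr ((Nat.prime_dvd_prime_iff_eq hp Nat.prime_five).1 h8)
  · rintro (h | h)
    · rw [h]; norm_num
    · rw [h]; norm_num

/-- the removed classes -/
def QB {k : ℕ} (w : Fin k → List ℕ) (L : ℕ) (i₀ : Fin k) (p n : ℕ) : Prop :=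
  ¬ p ∣ 2 * 10 ∧ ∃ i, n + base (w i) L ≡ base (w i₀) L [MOD p]

theorem nuB_QB {k : ℕ} (w : Fin k → List ℕ) (L : ℕ) (i₀ : Fin k) {p : ℕ} (hp : p.Prime) :
    nuB (QB w L i₀) p = if p ∣ 2 * 10 then 0 else nu w L p := by
  classical
  unfold nuB
  split_ifs with h
  · rw [card_eq_zero, filter_eq_empty_iff]
    intro n _ hn
    exact hn.1 h
  · obtain ⟨B, hB⟩ : ∃ B : Fin k → ℕ, ∀ i, B i = base (w i) L := ⟨_, fun _ => rfl⟩
    have hp0 := hp.pos
    have h1 : (range p).filter (fun r => QB w L i₀ p r) =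
        ((univ : Finset (Fin k)).image (fun i => base (w i) L % p)).image (fun t => (B i₀ + (p - t)) % p) := by
      ext r
      rw [mem_filter, mem_range, mem_image]
      constructor
      · rintro ⟨hr, -, i, hi⟩
        refine ⟨B i % p, mem_image.2 ⟨i, mem_univ _, by rw [hB]⟩, ?_⟩
        rw [← hB, ← hB] at hi
        have h2 : B i₀ + (p - B i % p) ≡ r [MOD p] := by
          have h3 : r + B i + (p - B i % p) ≡ B i₀ + (p - B i % p) [MOD p] := hi.add_right _
          have h4 : r + B i + (p - B i % p) ≡ r [MOD p] := by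
            have h5 : B i + (p - B i % p) ≡ 0 [MOD p] := by
              have h6 : B i + (p - B i % p) = p * (B i / p) + p := by
                have := Nat.mod_lt (B i) hp0
                have := Nat.mod_add_div (B i) p
                omega
              rw [h6]
              exact (Nat.modEq_zero_iff_dvd).2 (dvd_add (dvd_mul_right _ _) (dvd_refl _))
            have := h5.add_left r
            rw [add_zero, ← add_assoc] at this
            exact this
          exact h3.symm.trans h4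
        have h7 : (B i₀ + (p - B i % p)) % p = r % p := h2
        rw [h7, Nat.mod_eq_of_lt hr]
      · rintro ⟨t, ht, rfl⟩
        rw [mem_image] at ht
        obtain ⟨i, -, rfl⟩ := ht
        refine ⟨Nat.mod_lt _ hp0, h, i, ?_⟩
        rw [← hB, ← hB]
        have h2 : (B i₀ + (p - B i % p)) % p + B i ≡ B i₀ + (p - B i % p) + B i [MOD p] :=
          (Nat.mod_modEq _ _).add_right _
        refine h2.trans ?_
        have h6 : B i₀ + (p - B i % p) + B i = B i₀ + (p * (B i / p) + p) := by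
          have := Nat.mod_lt (B i) hp0
          have := Nat.mod_add_div (B i) p
          omega
        rw [h6]
        have h7 : p * (B i / p) + p ≡ 0 [MOD p] :=
          (Nat.modEq_zero_iff_dvd).2 (dvd_add (dvd_mul_right _ _) (dvd_refl _))
        have := h7.add_left (B i₀)
        rwa [add_zero] at this
    rw [h1, card_image_of_injOn]
    · rfl
    · intro a ha b hb hab
      rw [mem_coe, mem_image] at ha hb
      obtain ⟨i, -, rfl⟩ := ha
      obtain ⟨j, -, rfl⟩ := hb
      have ha := Nat.mod_lt (base (w i) L) hp0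
      have hb := Nat.mod_lt (base (w j) L) hp0
      obtain ⟨s, hs⟩ : ∃ s, s = base (w i) L % p := ⟨_, rfl⟩
      obtain ⟨t, ht⟩ : ∃ t, t = base (w j) L % p := ⟨_, rfl⟩
      simp only at hab
      rw [← hs, ← ht] at hab ⊢
      rw [← hs] at ha
      rw [← ht] at hb
      have h2 : B i₀ + (p - s) ≡ B i₀ + (p - t) [MOD p] := hab
      have h3 : p - s ≡ p - t [MOD p] := Nat.ModEq.add_left_cancel' _ h2
      have h4 : s + t + (p - s) ≡ s + t + (p - t) [MOD p] := h3.add_left _
      have e1 : s + t + (p - s) = t + p := by omega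
      have e2 : s + t + (p - t) = s + p := by omega
      rw [e1, e2] at h4
      have h5 : t ≡ s [MOD p] := Nat.ModEq.add_right_cancel' _ h4
      have h6 : t % p = s % p := h5
      rw [Nat.mod_eq_of_lt ha, Nat.mod_eq_of_lt hb] at h6
      exact h6.symm

theorem adm_QB {k : ℕ} (w : Fin k → List ℕ) (L : ℕ) (i₀ : Fin k)
    (h : ∀ p : ℕ, p.Prime → p ≠ 2 → p ≠ 5 → nu w L p < p) : Adm (QB w L i₀) k := by
  refine ⟨⟨fun p n => ?_, fun p hp => ?_⟩, fun p hp => ?_⟩
  · unfold QB
    refine and_congr_right fun _ => exists_congr fun i => ?_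
    constructor
    · intro h1
      exact ((Nat.mod_modEq n p).add_right _).trans h1
    · intro h1
      exact ((Nat.mod_modEq n p).symm.add_right _).trans h1
  · rw [nuB_QB w L i₀ hp]
    split_ifs
    · exact Nat.zero_le _
    · unfold nu
      refine card_image_le.trans ?_
      rw [card_univ, Fintype.card_fin]
  · rw [nuB_QB w L i₀ hp]
    split_ifs with h1
    · exact hp.pos
    · rw [dvd_twenty hp] at h1
      push Not at h1
      exact h p hp h1.1 h1.2

theorem VQ_QB {k : ℕ} (w : Fin k → List ℕ) (L : ℕ) (i₀ : Fin k) (y : ℕ) : VQ (QB w L i₀) y = V w L y := by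
  classical
  unfold V VQ
  have h1 : (Icc 1 y).filter (fun q => q.Prime ∧ q ≠ 2 ∧ q ≠ 5) = (pz y).filter (fun p => ¬ p ∣ 2 * 10) := by
    ext q
    rw [mem_filter, mem_filter, mem_Icc, mem_pz]
    constructor
    · rintro ⟨⟨_, h2⟩, h3, h4, h5⟩
      refine ⟨⟨h2, h3⟩, fun hd => ?_⟩
      rcases (dvd_twenty h3).1 hd with h6 | h6
      · exact h4 h6
      · exact h5 h6
    · rintro ⟨⟨h2, h3⟩, h4⟩
      refine ⟨⟨h3.one_le, h2⟩, h3, ?_, ?_⟩
      · rintro rfl; exact h4 (by norm_num)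
      · rintro rfl; exact h4 (by norm_num)
  rw [h1, prod_filter]
  apply prod_congr rfl
  intro p hp
  rw [nuB_QB w L i₀ (mem_pz.1 hp).2]
  by_cases h2 : p ∣ 2 * 10
  · rw [if_pos h2, if_neg (not_not.2 h2)]
    simp
  · rw [if_neg h2, if_pos h2]

theorem palin_mod {w : List ℕ} (hw : Outer w) {L : ℕ} (u : Fin L → Fin 10) (c : ℕ) :
    palin w u c ≡ w.headI [MOD 10] := by
  unfold palin
  cases w with
  | nil => exact absurd rfl hw.1
  | cons a l =>
    simp only [List.cons_append, Nat.ofDigits_cons, List.headI]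
    exact (Nat.modEq_iff_dvd' (Nat.le_add_right _ _)).2 ⟨_, by rw [Nat.add_sub_cancel_left]⟩ |>.symm

theorem rough_iff {k : ℕ} {w : Fin k → List ℕ} (hw : ∀ i, Outer (w i)) (hl : ∀ i j, (w i).length = (w j).length)
    {L : ℕ} (i₀ : Fin k) (u : Fin L → Fin 10) (c y : ℕ) :
    (∀ p ∈ pz y, ¬ QB w L i₀ p (palin (w i₀) u c)) ↔ ∀ i, Rough y (palin (w i) u c) := by
  constructor
  · intro h i p hp hd
    by_contra hcon
    rw [not_lt] at hcon
    by_cases h20 : p ∣ 2 * 10
    · have h1 : p ∣ 10 := by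
        rcases (dvd_twenty hp).1 h20 with h2 | h2
        · rw [h2]; norm_num
        · rw [h2]; norm_num
      have h2 : palin (w i) u c ≡ (w i).headI [MOD p] := (palin_mod (hw i) u c).of_dvd h1
      have h3 : p ∣ (w i).headI := (Nat.modEq_zero_iff_dvd.1 (h2.symm.trans (Nat.modEq_zero_iff_dvd.2 hd)))
      exact Nat.not_coprime_of_dvd_of_dvd hp.one_lt h3 h1 (hw i).2.2
    · refine h p (mem_pz.2 ⟨hcon, hp⟩) ⟨h20, i, ?_⟩
      have h1 := palin_sub (hw i₀) (hw i) (hl i₀ i) u c
      rw [h1]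
      have h2 : palin (w i) u c ≡ 0 [MOD p] := Nat.modEq_zero_iff_dvd.2 hd
      have := h2.add_right (base (w i₀) L)
      rwa [zero_add] at this
  · rintro h p hp ⟨-, i, hi⟩
    rw [mem_pz] at hp
    have h1 := palin_sub (hw i₀) (hw i) (hl i₀ i) u c
    rw [h1] at hi
    have h2 : palin (w i) u c ≡ 0 [MOD p] := by
      apply Nat.ModEq.add_right_cancel' (base (w i₀) L)
      rwa [zero_add]
    have := h i p hp.2 (Nat.modEq_zero_iff_dvd.1 h2)
    omega

lemma spr : Spr 10 (fun _ => (0 : ZMod 1)) := by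
  intro χ hχ
  exfalso
  apply hχ
  ext x
  have : x = 0 := Subsingleton.elim _ _
  rw [this]
  simp

open Classical in
/-- **the asymptotic formula** -/
theorem tup_asym (k : ℕ) (hk : 1 ≤ k) (ε : ℝ) (hε : 0 < ε) : ∃ K L₀ : ℕ, 1 ≤ K ∧ ∀ L : ℕ, L₀ ≤ L →
    ∀ w : Fin k → List ℕ, (∀ i, Outer (w i)) → (∀ i j, (w i).length = (w j).length) →
    (∀ p : ℕ, p.Prime → p ≠ 2 → p ≠ 5 → nu w L p < p) → ∀ c : ℕ, ∀ y : ℕ, 3 ≤ y → y ^ K ≤ 10 ^ L →
    |(((univ : Finset (Fin L → Fin 10)).filter (fun u => ∀ i, Rough y (palin (w i) u c))).card : ℝ) -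
      10 ^ L * V w L y| ≤ ε * (10 ^ L * V w L y) := by
  obtain ⟨K, L₀, hK, hm⟩ := master (b := 10) (by norm_num) (fun _ => (0 : ZMod 1)) spr k hk ε hε
  refine ⟨K, L₀, hK, fun L hL w hw hl hadm c y hy hyK => ?_⟩
  obtain ⟨i₀⟩ : Nonempty (Fin k) := ⟨⟨0, hk⟩⟩
  have h0 := List.length_pos_iff.2 (hw i₀).1
  have key := hm L hL ((w i₀).length + L) (base (w i₀) L) c (by omega) 0 y hy hyK (QB w L i₀) (adm_QB w L i₀ hadm)
    (fun p hp n hq => hq.1 hp)
  rw [VQ_QB] at key
  have e1 : ((10 : ℕ) : ℝ) ^ L / (Fintype.card (ZMod 1) : ℝ) = 10 ^ L := by simp [ZMod.card]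
  rw [e1] at key
  have e2 : ((Om 10 ((w i₀).length + L) L (base (w i₀) L) c (fun _ => (0 : ZMod 1)) 0).filter
      (fun n => ∀ p ∈ pz y, ¬ QB w L i₀ p n)).card =
      ((univ : Finset (Fin L → Fin 10)).filter (fun u => ∀ i, Rough y (palin (w i) u c))).card := by
    unfold Om
    rw [filter_image, card_image_of_injective _ (VE_inj (by norm_num) (by omega)), filter_filter]
    have e3 : (univ : Finset (Fin L → Fin 10)).filter (fun u => ∀ i, Rough y (palin (w i) u c)) =
        ((univ : Finset (Fin L → Fin 10 × Fin 1)).filter (fun m => ∑ c : Fin L, (0 : ZMod 1) = 0 ∧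
          ∀ p ∈ pz y, ¬ QB w L i₀ p (VE 10 ((w i₀).length + L) L (base (w i₀) L) c m))).image
          (fun m i => (m i).1) := by
      ext u
      rw [mem_filter, mem_image]
      constructor
      · rintro ⟨-, h⟩
        refine ⟨fun i => (u i, 0), ?_, rfl⟩
        rw [mem_filter]
        refine ⟨mem_univ _, Subsingleton.elim _ _, ?_⟩
        rw [VE_palin (hw i₀)]
        exact (rough_iff hw hl i₀ u c y).2 h
      · rintro ⟨m, hm, rfl⟩
        rw [mem_filter] at hm
        refine ⟨mem_univ _, ?_⟩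
        have h := hm.2.2
        rw [VE_palin (hw i₀)] at h
        exact (rough_iff hw hl i₀ _ c y).1 h
    rw [e3, card_image_of_injective]
    intro m m' hmm
    funext i
    have h1 := congrFun hmm i
    simp only at h1
    exact Prod.ext h1 (Subsingleton.elim _ _)
  rw [e2] at key
  exact key

open Classical in
/-- **the lower bound** -/
theorem tup_low (k : ℕ) (hk : 1 ≤ k) : ∃ K L₀ : ℕ, ∃ c₀ : ℝ, 1 ≤ K ∧ 0 < c₀ ∧ ∀ L : ℕ, L₀ ≤ L →
    ∀ w : Fin k → List ℕ, (∀ i, Outer (w i)) → (∀ i j, (w i).length = (w j).length) →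
    (∀ p : ℕ, p.Prime → p ≠ 2 → p ≠ 5 → nu w L p < p) → ∀ c : ℕ,
    c₀ * (10 : ℝ) ^ L / (L : ℝ) ^ k ≤ (((univ : Finset (Fin L → Fin 10)).filter
      (fun u => ∀ i, ∀ p : ℕ, p.Prime → p ∣ palin (w i) u c → 10 ^ L < p ^ K)).card : ℝ) := by
  obtain ⟨K1, L1, hK1, hasy⟩ := tup_asym k hk (1 / 2) (by norm_num)
  obtain ⟨c1, hc1, hV⟩ := VQ_low k hk
  set K := max K1 2 with hK
  have hKK1 : K1 ≤ K := le_max_left _ _
  have hK2 : 2 ≤ K := le_max_right _ _
  have hlb : 0 < Real.log 10 := Real.log_pos (by norm_num)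
  refine ⟨K, max L1 (3 ^ K), c1 / 2 / Real.log 10 ^ k, by omega, by positivity, fun L hL w hw hl hadm c => ?_⟩
  have hLL1 : L1 ≤ L := (le_max_left _ _).trans hL
  have hL3 : 3 ^ K ≤ L := (le_max_right _ _).trans hL
  have hL1 : 1 ≤ L := (Nat.one_le_pow _ _ (by norm_num)).trans hL3
  set T := 10 ^ L with hT
  have hLT : L ≤ T := (Nat.lt_pow_self (by norm_num : 1 < 10)).le
  have hT3 : 3 ^ K ≤ T := hL3.trans hLT
  have h3T : 3 ≤ T := (Nat.le_self_pow (by omega) 3).trans hT3
  set y := Nat.findGreatest (fun y => y ^ K ≤ T) T with hy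
  have hyK : y ^ K ≤ T := Nat.findGreatest_spec (P := fun y => y ^ K ≤ T) (n := T) h3T hT3
  have hy3 : 3 ≤ y := Nat.le_findGreatest h3T hT3
  have hyX : y ≤ T := Nat.findGreatest_le T
  have hy1 : T < (y + 1) ^ K := by
    by_contra hcon
    push Not at hcon
    have h1 : y + 1 ≤ T := (Nat.le_self_pow (by omega) _).trans hcon
    have h2 : y + 1 ≤ y := Nat.le_findGreatest h1 hcon
    omega
  have hlogy : 0 < Real.log y := Real.log_pos (by exact_mod_cast (by omega : 1 < y))
  have hlyT : Real.log y ≤ L * Real.log 10 := by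
    have h1 : Real.log y ≤ Real.log T := Real.log_le_log (by positivity) (by exact_mod_cast hyX)
    rw [hT] at h1
    push_cast at h1
    rwa [Real.log_pow] at h1
  have key := hasy L hLL1 w hw hl hadm c y hy3 ((Nat.pow_le_pow_right (by omega) hKK1).trans hyK)
  obtain ⟨i₀⟩ : Nonempty (Fin k) := ⟨⟨0, hk⟩⟩
  have hV1 := hV (QB w L i₀) (adm_QB w L i₀ hadm) y hy3
  rw [VQ_QB] at hV1
  have hLr : (1 : ℝ) ≤ L := by exact_mod_cast hL1
  have h1 : c1 / 2 / Real.log 10 ^ k * (10 : ℝ) ^ L / (L : ℝ) ^ k ≤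
      (((univ : Finset (Fin L → Fin 10)).filter (fun u => ∀ i, Rough y (palin (w i) u c))).card : ℝ) := by
    have h2 : (10 : ℝ) ^ L * (c1 / (L * Real.log 10) ^ k) ≤ 10 ^ L * V w L y := by
      apply mul_le_mul_of_nonneg_left _ (by positivity)
      refine le_trans ?_ hV1
      gcongr
    have h3 : c1 / 2 / Real.log 10 ^ k * (10 : ℝ) ^ L / (L : ℝ) ^ k =
        1 / 2 * ((10 : ℝ) ^ L * (c1 / (L * Real.log 10) ^ k)) := by
      rw [mul_pow]
      field_simp
    rw [h3]
    linarith [(abs_le.1 key).1]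
  refine h1.trans ?_
  have h2 : (univ : Finset (Fin L → Fin 10)).filter (fun u => ∀ i, Rough y (palin (w i) u c)) ⊆
      (univ : Finset (Fin L → Fin 10)).filter (fun u => ∀ i, ∀ p : ℕ, p.Prime → p ∣ palin (w i) u c → T < p ^ K) := by
    intro u hu
    rw [mem_filter] at hu ⊢
    refine ⟨hu.1, fun i p hp hd => ?_⟩
    exact lt_of_lt_of_le hy1 (Nat.pow_le_pow_left (hu.2 i p hp hd) K)
  exact_mod_cast card_le_card h2

end Pool.Agent.Helper51.PL
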